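import Pool.Agent.Lib.MP_5c318e_ag.S.ModA
import Pool.Agent.Lib.MP_5c318e_ag.S.PBas
import Pool.Agent.Lib.MP_5c318e_ag.I.Lct
import Pool.Agent.Lib.MP_5c318e_ag.N.ChartU

/-! Negative powers of eigenvalues of a linear family of polynomial matrices, with bounds of
moderate growth in the parameter. -/

set_option autoImplicit false

namespace Pool.Agent.Lib.MP_5c318e_ag.F2

open MeasureTheory Set Metric Filter MvPolynomial
open scoped ENNReal

/-- negative powers of polynomials on polydiscs, explicit constant -/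
theorem pol_exp {ι : Type} [Fintype ι] {c R : ℝ} {d : ℕ} (hc : 0 ≤ c) (hR : 0 < R)
    (P : MvPolynomial ι ℂ) (hP : P.totalDegree ≤ d) (m : ι →₀ ℕ) :
    ∫⁻ z in ball (0 : ι → ℂ) R, ‖eval z P‖ₑ ^ (-c) ≤
      Iso.lctC c d R ^ Fintype.card ι * ‖coeff m P‖ₑ ^ (-c) := by
  set e := Fintype.equivFin ι
  have h1 := Iso.lct hc hR (rename e P) (fun j => (degreeOf_le_totalDegree _ j).trans
    ((totalDegree_rename_le _ _).trans hP)) (m.mapDomain e)
  rw [coeff_rename_mapDomain _ e.injective] at h1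
  refine le_trans (le_of_eq ?_) h1
  have hme := volume_measurePreserving_piCongrLeft (fun _ : ι => ℂ) e.symm
  have hpre : (MeasurableEquiv.piCongrLeft (fun _ : ι => ℂ) e.symm) ⁻¹' ball 0 R = ball 0 R := by
    ext z
    simp only [mem_preimage, mem_ball_zero_iff, pi_norm_lt_iff hR]
    refine ⟨fun h j => ?_, fun h i => ?_⟩
    · simpa [MeasurableEquiv.piCongrLeft, Equiv.piCongrLeft_apply_eq_cast] using h (e.symm j)
    · simpa [MeasurableEquiv.piCongrLeft, Equiv.piCongrLeft_apply_eq_cast] using h (e i)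
  rw [← (hme.restrict_preimage measurableSet_ball).lintegral_comp
    ((N.measurable_eval P).enorm.pow_const _), hpre]
  refine lintegral_congr fun z => ?_
  have : (MeasurableEquiv.piCongrLeft (fun _ : ι => ℂ) e.symm) z = z ∘ e := by
    ext i
    simp [MeasurableEquiv.piCongrLeft, Equiv.piCongrLeft_apply_eq_cast]
  rw [eval_rename, this]

/-- the condition for a smaller exponent -/
theorem lct_mono {Ω κ : Type*} [MeasurableSpace Ω] [Fintype κ] {ν : Measure Ω} {τ : Ω → κ → ℂ}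
    {p c c0 : ℝ} (hp : 0 < p) (hc : 0 < c) (hcc : c ≤ c0) {C : ℝ≥0∞} (h : N.Lct ν τ p c0 C) :
    N.Lct ν τ p c ((Fintype.card κ + 1 : ℝ≥0∞) ^ c0 * C) := by
  intro a ha
  refine N.lint_neg_of_unit τ (fun x => ‖τ x‖ₑ ^ (p + c)) (fun a ha => ?_) ha
  have h1 := h a (by rintro rfl; simp at ha)
  rw [← ofReal_norm a, ha, ENNReal.ofReal_one, ENNReal.one_rpow, mul_one] at h1
  set n : ℝ≥0∞ := Fintype.card κ + 1 with hn
  have hn1 : 1 ≤ n := le_add_self
  have hnt : n ≠ ⊤ := by simp [hn]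
  refine le_trans ?_ (mul_le_mul_right h1 _)
  rw [← lintegral_const_mul' _ _ (ENNReal.rpow_ne_top_of_nonneg (hc.le.trans hcc) hnt)]
  refine lintegral_mono fun x => ?_
  by_cases h0 : τ x = 0
  · simp [h0, ENNReal.zero_rpow_of_pos (add_pos hp hc)]
  have h2 : ‖τ x‖ₑ ≠ 0 := by simpa using h0
  have h3 : ‖a ⬝ᵥ τ x‖ₑ ≤ n * ‖τ x‖ₑ := by
    refine (enorm_sum_le _ _).trans ((Finset.sum_le_card_nsmul _ _ ‖τ x‖ₑ fun i _ => ?_).trans ?_)
    · rw [← ofReal_norm, ← ofReal_norm, norm_mul]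
      exact ENNReal.ofReal_le_ofReal ((mul_le_of_le_one_left (norm_nonneg _)
        (ha ▸ norm_le_pi_norm a i)).trans (norm_le_pi_norm _ i))
    · rw [nsmul_eq_mul, Finset.card_univ]
      exact mul_le_mul_left le_self_add _
  by_cases h4 : ‖a ⬝ᵥ τ x‖ₑ = 0
  · rw [h4, ENNReal.zero_rpow_of_neg (neg_lt_zero.2 (hc.trans_le hcc)),
      ENNReal.mul_top (ENNReal.rpow_pos (pos_iff_ne_zero.2 h2) enorm_ne_top).ne',
      ENNReal.mul_top (ENNReal.rpow_pos (zero_lt_one.trans_le hn1) hnt).ne']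
    exact le_top
  have e1 : ‖a ⬝ᵥ τ x‖ₑ ^ (-c) = ‖a ⬝ᵥ τ x‖ₑ ^ (c0 - c) * ‖a ⬝ᵥ τ x‖ₑ ^ (-c0) := by
    rw [← ENNReal.rpow_add _ _ h4 enorm_ne_top]; congr 1; ring
  have e2 : ‖τ x‖ₑ ^ (p + c0) = ‖τ x‖ₑ ^ (p + c) * ‖τ x‖ₑ ^ (c0 - c) := by
    rw [← ENNReal.rpow_add _ _ h2 enorm_ne_top]; congr 1; ring
  have h5 : ‖a ⬝ᵥ τ x‖ₑ ^ (c0 - c) ≤ n ^ c0 * ‖τ x‖ₑ ^ (c0 - c) := by
    refine (ENNReal.rpow_le_rpow h3 (sub_nonneg.2 hcc)).trans ?_
    rw [ENNReal.mul_rpow_of_nonneg _ _ (sub_nonneg.2 hcc)]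
    exact mul_le_mul_left (ENNReal.rpow_le_rpow_of_exponent_le hn1 (sub_le_self _ hc.le)) _
  rw [e1, e2]
  calc _ ≤ ‖τ x‖ₑ ^ (p + c) * (n ^ c0 * ‖τ x‖ₑ ^ (c0 - c) * ‖a ⬝ᵥ τ x‖ₑ ^ (-c0)) := by gcongr
    _ = _ := by ring

section tame

variable {δ : Type} [Fintype δ] {S : Type} [TopologicalSpace S] [MeasurableSpace S] {D : RD δ S}
  {X : Type} {π : X → S}

/-- functions on a space over `S` that are bounded by a moderate function on `S` -/
def Tame (D : RD δ S) (π : X → S) (f : X → ℂ) : Prop :=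
  ∃ β : S → ℝ≥0∞, D.Mod β ∧ ∀ x, ‖f x‖ₑ ≤ β (π x)

theorem Tame.add {f g : X → ℂ} (hf : Tame D π f) (hg : Tame D π g) :
    Tame D π fun x => f x + g x := by
  obtain ⟨β, h, h'⟩ := hf
  obtain ⟨γ, k, k'⟩ := hg
  exact ⟨_, h.add k, fun x => (enorm_add_le _ _).trans (add_le_add (h' x) (k' x))⟩

theorem Tame.mul {f g : X → ℂ} (hf : Tame D π f) (hg : Tame D π g) :
    Tame D π fun x => f x * g x := by
  obtain ⟨β, h, h'⟩ := hf
  obtain ⟨γ, k, k'⟩ := hg
  exact ⟨_, h.mul k, fun x => (enorm_mul _ _).trans_le (mul_le_mul' (h' x) (k' x))⟩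

theorem Tame.mv {A σ : Type} [CommRing A] {φ : X → A →+* ℂ} {v : X → σ → ℂ}
    (hφ : ∀ a, Tame D π fun x => φ x a) (hv : ∀ i, Tame D π fun x => v x i) (P : MvPolynomial σ A) :
    Tame D π fun x => eval₂ (φ x) (v x) P := by
  induction P using MvPolynomial.induction_on with
  | C a => simpa only [eval₂_C] using hφ a
  | add p q hp hq => simpa only [eval₂_add] using hp.add hq
  | mul_X p i hp => simpa only [eval₂_mul, eval₂_X] using hp.mul (hv i)

theorem mod_lctC {c : ℝ} {d : ℕ} (hc : 0 ≤ c) (hd : d * c < 2) {R : S → ℝ} (h0 : ∀ b, 0 ≤ R b)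
    (hR : D.Mod fun b => ENNReal.ofReal (R b)) : D.Mod fun b => Iso.lctC c d (R b) := by
  refine (((((RD.Mod.const (c := 4) (by simp)).mul hR).add (RD.Mod.const (c := 4) (by simp))).pow
    d).rpow hc).mul (((hR.pow 2).mul (RD.Mod.const (c := (NNReal.pi : ℝ≥0∞)) (by simp))).add
      (RD.Mod.const (c := d * Iso.lctI (d * c)) (ENNReal.mul_ne_top (by simp)
        (Iso.lctI_lt_top hd).ne))) |>.mono' fun b => le_of_eq ?_
  have := h0 b
  rw [Iso.lctC, Complex.volume_ball, ENNReal.ofReal_pow (by positivity),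
    ENNReal.ofReal_add (by positivity) (by positivity), ENNReal.ofReal_mul (by positivity)]
  simp

end tame

variable {δ K : Type} [Fintype δ] [DecidableEq δ] [Field K] [Algebra ℂ K] {B : Cht δ K}
  {r : Type} [Fintype r]

/-- forms without a common zero on the general fibre are bounded below on the sphere -/
theorem forms_low (hB : ∀ a : B.O, B.D.Mod fun b => ‖b a‖ₑ) {I : Type} [Fintype I]
    (c : I → MvPolynomial r B.O)
    (h : ∀ᶠ b in B.D.gen, ∀ a : r → ℂ, (∀ α, eval₂ (b.hom : B.O →+* ℂ) a (c α) = 0) → a = 0) :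
    ∃ γ : Pt B.O → ℝ≥0∞, B.D.Mod γ ∧ ∀ᶠ b in B.D.gen, ∀ a : r → ℂ, ‖a‖ = 1 →
      ∃ α, 1 ≤ γ b * ‖eval₂ (b.hom : B.O →+* ℂ) a (c α)‖ₑ := by
  obtain ⟨g, hg, H⟩ := h
  let G : B.O := aeval B.z g
  have hG : ∀ b : Pt B.O, b G = eval (B.D.π b) g := fun b => by
    rw [show B.D.π b = fun i => b (B.z i) from funext (B.π_eq b), ← coe_aeval_eq_eval]
    exact (DFunLike.congr_fun (comp_aeval B.z b.hom) g)
  have key : ∀ i, ∃ (n : ℕ) (q : I → MvPolynomial r B.O), ∑ α, q α * c α = (C G * X i) ^ n := by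
    intro i
    have : Algebra.FiniteType ℂ (MvPolynomial r B.O) :=
      Algebra.FiniteType.trans (S := B.O) inferInstance inferInstance
    by_cases hr : C G * X i ∈ (Ideal.span (range c)).radical
    · obtain ⟨n, hn⟩ := hr
      exact ⟨n, Ideal.mem_span_range_iff_exists_fun.1 hn⟩
    obtain ⟨p, h1, h2⟩ := Pt.exists_zero_ne hr
    let b : Pt B.O := p.res (IsScalarTower.toAlgHom ℂ B.O (MvPolynomial r B.O))
    have e : (p.hom : MvPolynomial r B.O →+* ℂ) = eval₂Hom (b.hom : B.O →+* ℂ) fun i => p (X i) :=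
      ringHom_ext (fun a => by simp [b]) fun i => by simp
    rw [map_mul] at h2
    have h3 := H b (by rw [← hG]; exact left_ne_zero_of_mul h2) (fun i => p (X i)) fun α =>
      (RingHom.congr_fun e (c α)).symm.trans (h1 _ (Ideal.subset_span ⟨α, rfl⟩))
    exact (right_ne_zero_of_mul h2 (congrFun h3 i)).elim
  choose n q hq using key
  have ht : ∀ P : MvPolynomial r B.O, Tame B.D (fun x : Pt B.O × {a : r → ℂ // ‖a‖ = 1} => x.1)
      fun x => eval₂ (x.1.hom : B.O →+* ℂ) x.2.1 P :=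
    Tame.mv (fun a => ⟨_, hB a, fun _ => le_rfl⟩) fun i => ⟨_, RD.Mod.const ENNReal.one_ne_top,
      fun x => by
        rw [← ofReal_norm, ← ENNReal.ofReal_one]
        exact ENNReal.ofReal_le_ofReal ((norm_le_pi_norm x.2.1 i).trans x.2.2.le)⟩
  choose β hβ hβ' using fun i α => ht (q i α)
  have hi : B.D.Mod fun b => ‖b G‖ₑ⁻¹ := ⟨g, hg, 1, 1, fun b hb => by
    beta_reduce
    rw [hG, ← ofReal_norm, ← ENNReal.ofReal_inv_of_pos (norm_pos_iff.2 hb), one_mul, pow_one]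
    exact ENNReal.ofReal_le_ofReal (inv_le_msz g _)⟩
  refine ⟨fun b => ∑ i, ‖b G‖ₑ⁻¹ ^ n i * ∑ α, β i α b, RD.Mod.sum _ fun i _ =>
    (hi.pow _).mul (RD.Mod.sum _ fun α _ => hβ i α), g, hg, fun b hb a ha => ?_⟩
  obtain ⟨i, hi⟩ : ∃ i, 1 ≤ ‖a i‖ := by
    by_contra h
    push Not at h
    exact ((pi_norm_lt_iff one_pos).2 h).ne ha
  have hb' : ‖b G‖ₑ ≠ 0 := by simpa [hG] using hb
  have e := congrArg (eval₂Hom (b.hom : B.O →+* ℂ) a) (hq i)
  simp only [map_sum, map_mul, map_pow, coe_eval₂Hom, eval₂_C, eval₂_X] at e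
  have h1 : ‖b G‖ₑ ^ n i ≤ ∑ α, β i α b * ‖eval₂ (b.hom : B.O →+* ℂ) a (c α)‖ₑ := by
    calc ‖b G‖ₑ ^ n i ≤ ‖(b G * a i) ^ n i‖ₑ := by
          rw [enorm_pow, enorm_mul]
          refine pow_le_pow_left' (le_mul_of_one_le_right' ?_) _
          rw [← ofReal_norm, ← ENNReal.ofReal_one]
          exact ENNReal.ofReal_le_ofReal hi
      _ ≤ _ := (congrArg enorm e).ge.trans ((enorm_sum_le _ _).trans
          (Finset.sum_le_sum fun α _ => (enorm_mul _ _).trans_le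
            (mul_le_mul_left (hβ' i α (b, ⟨a, ha⟩)) _)))
  have hne : (Finset.univ : Finset I).Nonempty := by
    refine Finset.nonempty_of_ne_empty fun h => ?_
    rw [h, Finset.sum_empty, nonpos_iff_eq_zero] at h1
    exact pow_ne_zero _ hb' h1
  obtain ⟨α, -, hα⟩ := Finset.exists_max_image _
    (fun α => ‖eval₂ (b.hom : B.O →+* ℂ) a (c α)‖ₑ) hne
  refine ⟨α, le_trans ?_ (mul_le_mul_left (Finset.single_le_sum
    (f := fun i => ‖b G‖ₑ⁻¹ ^ n i * ∑ α, β i α b) (fun _ _ => zero_le) (Finset.mem_univ i)) _)⟩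
  calc (1 : ℝ≥0∞) = ‖b G‖ₑ⁻¹ ^ n i * ‖b G‖ₑ ^ n i := by
        rw [← mul_pow, ENNReal.inv_mul_cancel hb' enorm_ne_top, one_pow]
    _ ≤ _ := by
        rw [mul_assoc, Finset.sum_mul]
        exact mul_le_mul_right (h1.trans (Finset.sum_le_sum fun α' _ =>
          mul_le_mul_right (hα α' (Finset.mem_univ _)) _)) _

variable {ν d : Type} [Fintype ν] [Fintype d] [DecidableEq d]

/-- the integral bound for eigenvalues -/
theorem eigen (hB : ∀ a : B.O, B.D.Mod fun b => ‖b a‖ₑ) (A : r → Matrix d d (MvPolynomial ν B.O))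
    (Δ : MvPolynomial ν B.O)
    (h : ∀ᶠ b in B.D.gen, ∀ a : r → ℂ, a ≠ 0 → (Matrix.of fun j k => ∑ i,
      C (a i) * map (b.hom : B.O →+* ℂ) (A i j k)).det ≠ 0) :
    ∃ e : ℕ, ∀ c : ℝ, 0 ≤ c → e * c < 2 → ∀ R : Pt B.O → ℝ, (∀ b, 0 < R b) →
      (B.D.Mod fun b => ENNReal.ofReal (R b)) → ∃ C : Pt B.O → ℝ≥0∞, B.D.Mod C ∧
      ∀ᶠ b in B.D.gen, ∀ a : r → ℂ, ‖a‖ = 1 → ∃ F : (ν → ℂ) → ℝ≥0∞, Measurable F ∧
        ∫⁻ z, F z ≤ C b ∧ ∀ (z : ν → ℂ) (t : ℂ), ‖z‖ < R b →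
          ((eval₂ (b.hom : B.O →+* ℂ) z Δ * t) • (1 : Matrix d d ℂ) - Matrix.of fun j k =>
            ∑ i, a i * eval₂ (b.hom : B.O →+* ℂ) z (A i j k)).det = 0 → ‖t‖ₑ ^ (-c) ≤ F z := by
  let U : Matrix d d (MvPolynomial ν (MvPolynomial r B.O)) :=
    Matrix.of fun j k => ∑ i, C (X i) * map C (A i j k)
  let ψ : Pt B.O → (r → ℂ) → MvPolynomial r B.O →+* ℂ := fun b a => eval₂Hom (b.hom : B.O →+* ℂ) a
  have hψ : ∀ b a, (ψ b a).comp C = (b.hom : B.O →+* ℂ) := fun b a => eval₂Hom_comp_C _ _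
  have e1 : ∀ b a, map (ψ b a) U.det = (Matrix.of fun j k => ∑ i,
      C (a i) * map (b.hom : B.O →+* ℂ) (A i j k)).det := fun b a => by
    refine (RingHom.map_det (map (ψ b a)) U).trans (congrArg _ ?_)
    ext1 j k
    simp only [U, RingHom.mapMatrix_apply, Matrix.map_apply, Matrix.of_apply, map_sum, map_mul,
      map_C, MvPolynomial.map_map, hψ]
    simp [ψ]
  have e2 : ∀ b a z, (eval₂Hom (ψ b a) z).mapMatrix U = Matrix.of fun j k =>
      ∑ i, a i * eval₂ (b.hom : B.O →+* ℂ) z (A i j k) := fun b a z => by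
    ext1 j k
    simp [U, eval₂_map, hψ, ψ]
  obtain ⟨γ, hγ, H⟩ := forms_low hB (fun α : U.det.support => coeff α.1 U.det)
    (h.mono fun b hb a ha => by
      by_contra h0
      refine hb a h0 ?_
      rw [← e1]
      ext m
      rw [coeff_map, coeff_zero]
      by_cases hm : m ∈ U.det.support
      · exact ha ⟨m, hm⟩
      · rw [notMem_support_iff.1 hm, map_zero])
  refine ⟨U.det.totalDegree, fun c hc hce R h0 hR => ?_⟩
  let Y : Type := {x : Pt B.O × (r → ℂ) × (ν → ℂ) // ‖x.2.1‖ = 1 ∧ ‖x.2.2‖ < R x.1}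
  have ht : ∀ P : MvPolynomial ν (MvPolynomial r B.O), Tame B.D (fun x : Y => x.1.1)
      fun x => eval₂ (ψ x.1.1 x.1.2.1) x.1.2.2 P :=
    Tame.mv (Tame.mv (fun a => ⟨_, hB a, fun _ => le_rfl⟩) fun i =>
      ⟨_, RD.Mod.const ENNReal.one_ne_top, fun x => by
        rw [← ofReal_norm, ← ENNReal.ofReal_one]
        exact ENNReal.ofReal_le_ofReal ((norm_le_pi_norm x.1.2.1 i).trans x.2.1.le)⟩) fun i =>
      ⟨_, hR, fun x => by
        rw [← ofReal_norm]
        exact ENNReal.ofReal_le_ofReal ((norm_le_pi_norm x.1.2.2 i).trans x.2.2.le)⟩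
  choose β hβ hβ' using fun j k => ht (map C Δ * U.adjugate j k)
  let W : Pt B.O → ℝ≥0∞ := fun b => 1 + ∑ j, ∑ k, β j k b
  have hW : B.D.Mod W := (RD.Mod.const ENNReal.one_ne_top).add
    (RD.Mod.sum _ fun j _ => RD.Mod.sum _ fun k _ => hβ j k)
  have hγ' := (RD.Mod.const ENNReal.one_ne_top).add hγ
  refine ⟨_, (hW.rpow hc).mul (((mod_lctC hc hce (fun b => (h0 b).le) hR).pow
    (Fintype.card ν)).mul (hγ'.rpow hc)), ?_⟩
  filter_upwards [H, hW.ne_top, hγ'.ne_top] with b hb hWt hγt a ha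
  obtain ⟨α, hα⟩ := hb a ha
  have hm : Measurable fun z => ‖eval z (map (ψ b a) U.det)‖ₑ ^ (-c) :=
    (N.measurable_eval _).enorm.pow_const _
  refine ⟨(ball 0 (R b)).indicator fun z => W b ^ c * ‖eval z (map (ψ b a) U.det)‖ₑ ^ (-c),
    (hm.const_mul _).indicator measurableSet_ball, ?_, fun z t hz ht => ?_⟩
  · rw [lintegral_indicator measurableSet_ball, lintegral_const_mul _ hm]
    refine mul_le_mul_right ((pol_exp hc (h0 b) _
      (Finset.sup_mono (support_map_subset _ _)) α.1).trans (mul_le_mul_right ?_ _)) _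
    have := N.rpow_neg_le_of_le_mul hc (by simp) hγt
      (hα.trans (mul_le_mul_left (le_add_self (b := 1)) _))
    rwa [ENNReal.one_rpow, mul_one, ← coe_eval₂Hom, ← coeff_map] at this
  · rw [indicator_of_mem (mem_ball_zero_iff.2 hz)]
    refine N.rpow_neg_le_of_le_mul hc (by simp [W]) hWt ?_
    have h1 := N.norm_det_le_of_eigen _ _ ht
    rw [← e2, ← RingHom.map_det (eval₂Hom (ψ b a) z) U,
      ← RingHom.map_adjugate (eval₂Hom (ψ b a) z) U] at h1
    rw [eval_map, ← coe_eval₂Hom, ← ofReal_norm]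
    refine (ENNReal.ofReal_le_ofReal h1).trans ?_
    rw [norm_mul, mul_right_comm, ENNReal.ofReal_mul' (norm_nonneg _), ofReal_norm, Finset.mul_sum,
      ENNReal.ofReal_sum_of_nonneg fun _ _ => by positivity]
    refine mul_le_mul_left (le_add_left (Finset.sum_le_sum fun j _ => ?_)) _
    rw [Finset.mul_sum, ENNReal.ofReal_sum_of_nonneg fun _ _ => by positivity]
    refine Finset.sum_le_sum fun k _ => le_trans (le_of_eq ?_) (hβ' j k ⟨(b, a, z), ha, hz⟩)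
    beta_reduce
    rw [← norm_mul, ofReal_norm, eval₂_mul, eval₂_map, hψ]
    rfl

end Pool.Agent.Lib.MP_5c318e_ag.F2
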