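import Pool.Agent.Lib.MP_5c318e_ag.F2.Alg
import Pool.Agent.Lib.MP_5c318e_ag.F2.Pol
import Pool.Agent.Lib.MP_5c318e_ag.S.FrontA
import Pool.Agent.Lib.MP_5c318e_ag.S.CRel
import Pool.Agent.Lib.MP_5c318e_ag.S.CCov
import Pool.Agent.Lib.MP_5c318e_ag.S.CV
import Pool.Agent.Lib.MP_5c318e_ag.S.Wr

/-! Small negative powers of the members of a pluricanonical system are integrable on the general
fibre, uniformly in the member and with moderate growth on the base. -/

set_option autoImplicit false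

namespace Pool.Agent.Lib.MP_5c318e_ag

open MeasureTheory Set Filter
open scoped ENNReal

variable {δ ν K M : Type} [Fintype δ] [DecidableEq δ] [Fintype ν] [DecidableEq ν]
  [Field K] [Algebra ℂ K] [Field M] [Algebra ℂ M] [Algebra K M] [IsScalarTower ℂ K M] {B : Cht δ K}

namespace F2

omit [IsScalarTower ℂ K M] in
theorem rel_reg (T : Rel B ν M) (φ : M) :
    ∀ᶠ b in B.D.gen, ∀ᶠ p in (T.fib b).gen, p.1.Reg φ := by
  obtain ⟨a, h, h0, e⟩ := T.X.frac φ
  exact (T.gen_ne h0).mono fun b hb => hb.mono fun p hp => ⟨a, h, hp, e⟩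

omit [IsScalarTower ℂ K M] in
theorem rel_const (T : Rel B ν M) {b : Pt B.O} (p : T.Fib b) {a : K} (ha : b.Reg a) :
    p.1.Reg (algebraMap K M a) ∧ p.1.ev (algebraMap K M a) = b.ev a := by
  obtain ⟨u, v, hv, e⟩ := ha
  have h : ∀ w, p.1 (T.inc w) = b w := fun w => DFunLike.congr_fun p.2 w
  have h1 : p.1 (T.inc v) ≠ 0 := by rwa [h]
  have h2 : algebraMap K M a * T.inc v = T.inc u := by rw [T.inc_eq, T.inc_eq, ← map_mul, e]
  exact ⟨⟨_, _, h1, h2⟩, by rw [p.1.ev_eq h1 h2, b.ev_eq hv e, h, h]⟩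

/-- the bound above a polydisc of one chart -/
theorem chart (T : Fam B ν M) (hc : ∀ x : M, IsAlgebraic K x → x ∈ Set.range (algebraMap K M))
    {r : Type} [Fintype r] {u : r → T.X.O} (hu : LinearIndependent K fun i => (u i : M)) :
    ∃ e : ℕ, ∀ c : ℝ, 0 ≤ c → e * c < 2 → ∀ R : Pt B.O → ℝ, (∀ b, 0 < R b) →
      (B.D.Mod fun b => ENNReal.ofReal (R b)) → ∃ C : Pt B.O → ℝ≥0∞, B.D.Mod C ∧
      ∀ᶠ b in B.D.gen, ∀ a : r → ℂ, ‖a‖ = 1 → ∀ G : T.Fib b → ℝ≥0∞,
        (∀ q, G q ≤ ‖a ⬝ᵥ fun i => q.1 (u i)‖ₑ ^ (-c)) → (∀ q, G q ≠ 0 → ‖(T.fib b).π q‖ < R b) →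
        ∫⁻ q, G q ∂(T.fib b).μ ≤ C b := by
  obtain ⟨A, j, hA⟩ := fam_mat T u
  have hB : ∀ a : B.O, B.D.Mod fun b => ‖b a‖ₑ := fun a => by
    simpa only [Pt.ev_coe, ofReal_norm] using B.mod_ev T.finB a
  obtain ⟨e, H⟩ := eigen hB A (T.finX.Δ ^ j) (by
    filter_upwards [T.gen_Δ, T.indep hc hu] with b h1 h2 a ha
    obtain ⟨C, e1, e2, e3⟩ := T.cov b h1
    refine cov_det_ne C (e1 ▸ T.finX.monic.natDegree_map _) _ (fun p k => ?_)
      (t := fun p => MvPolynomial.eval₂ (b.hom : B.O →+* ℂ) ((T.fib b).π p) (T.finX.Δ ^ j) *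
        (a ⬝ᵥ fun i => p.1 (u i))) fun U hU hne h0 => ha (h2 U hU hne a fun p hp => ?_)
    · rw [e3, ← (hA b p).2 a k]
      simp only [Matrix.of_apply, map_sum, map_mul, MvPolynomial.eval_C, MvPolynomial.eval_map]
    · refine (mul_eq_zero.1 (h0 p hp)).resolve_left ?_
      have := C.Δ_ne p
      rw [e2, MvPolynomial.eval_map] at this
      rw [MvPolynomial.eval₂_pow]
      exact pow_ne_zero _ this)
  refine ⟨e, fun c h0 he R hR hm => ?_⟩
  obtain ⟨C, hC, H⟩ := H c h0 he R hR hm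
  refine ⟨_, (RD.Mod.const (ENNReal.natCast_ne_top T.finX.f.natDegree)).mul hC, ?_⟩
  filter_upwards [H, T.gen_Δ] with b hb h1 a ha G hG hG'
  obtain ⟨F, hF, h2, h3⟩ := hb a ha
  obtain ⟨Cv, e1, -⟩ := T.cov b h1
  refine le_trans (lintegral_mono fun q => ?_) ((Cv.lint_le hF).trans
    (mul_le_mul' (Nat.cast_le.2 (e1 ▸ Polynomial.natDegree_map_le)) h2))
  by_cases h : G q = 0
  · exact h.trans_le zero_le
  · exact (hG q).trans (h3 _ _ (hG' q h) (det_eigen (hA b q).1 ((hA b q).2 a)))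

end F2

open F2

/-- one exponent, general points of the base -/
theorem Fam.lct_gen (T : Fam B ν M) (Fr : Frames T.dx)
    (hc : ∀ x : M, IsAlgebraic K x → x ∈ Set.range (algebraMap K M)) {m : ℕ} (hm : 0 < m)
    {r : Type} [Fintype r] {τ : r → T.X.O} (hτ : LinearIndependent K fun i => (τ i : M))
    (hP : ∀ i, Plu T.dx m (τ i : M)) :
    ∃ c : ℝ, 0 < c ∧ ∃ C : Pt B.O → ENNReal, B.D.Mod C ∧ ∀ᶠ b in B.D.gen,
      N.Lct (T.fib b).μ (fun p i => p.1 (τ i)) (2 / m) c (C b) := by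
  classical
  have : CharZero M := charZero_of_injective_algebraMap (algebraMap ℂ M).injective
  let J : Fin Fr.N → M := fun l => Jac T.dx (Fr.f l)
  let u : Fin Fr.N → r → M := fun l i => (τ i : M) / J l ^ m
  let G : Fin Fr.N → Finset M := fun l => Finset.univ.image (u l) ∪ Finset.univ.image (Fr.f l)
  have hGu : ∀ l i, u l i ∈ G l := fun l i =>
    Finset.mem_union_left _ (Finset.mem_image_of_mem _ (Finset.mem_univ i))
  have hGf : ∀ l i, Fr.f l i ∈ G l := fun l i =>
    Finset.mem_union_right _ (Finset.mem_image_of_mem _ (Finset.mem_univ i))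
  obtain ⟨s, k, n, H⟩ := cover_cert (k := K) G fun O hO => by
    obtain ⟨l, hl⟩ := Fr.cover O hO
    refine ⟨l, fun g hg => hl g ?_⟩
    rcases Finset.mem_union.1 hg with hg | hg <;> obtain ⟨j, -, rfl⟩ := Finset.mem_image.1 hg
    · exact Fr.reg l m _ (hP j)
    · exact Fr.mem l j
  choose T' hT' hT'' using fun l => exists_fam T.fg B ⟨T.finB⟩
    (Front.basis_of_jac T.dual.basis (Fr.ne l)) (G l)
  have hu : ∀ l, LinearIndependent K (u l) := fun l => by
    have h := hτ.map' (LinearMap.mulRight K (J l ^ m)⁻¹) (LinearMap.ker_eq_bot.2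
      (mul_left_injective₀ (inv_ne_zero (pow_ne_zero m (Fr.ne l)))))
    rwa [show u l = LinearMap.mulRight K (J l ^ m)⁻¹ ∘ fun i => (τ i : M) from
      funext fun i => div_eq_mul_inv _ _]
  choose e he using fun l => chart (T' l) hc (u := fun i => ⟨u l i, hT'' l _ (hGu l i)⟩) (hu l)
  set c : ℝ := 1 / (∑ l, (e l : ℝ) + 1) with hcd
  have hc0 : 0 < c := by positivity
  have hce : ∀ l, e l * c < 2 := fun l => by
    have := Finset.single_le_sum (f := fun l => (e l : ℝ)) (fun _ _ => by positivity)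
      (Finset.mem_univ l)
    rw [hcd, mul_one_div, div_lt_iff₀ (by positivity)]
    have : (0 : ℝ) ≤ e l := by positivity
    linarith
  let β : Pt B.O → ℝ := fun b => 1 + ∑ a ∈ k, ‖b.ev a‖
  have hβ : ∀ b, 1 ≤ β b := fun b => le_add_of_nonneg_right (by positivity)
  let R : Pt B.O → ℝ := fun b => n * β b ^ n + 1
  have hR : ∀ b, 0 < R b := fun b => by have := hβ b; positivity
  have m1 : B.D.Mod fun b => ENNReal.ofReal (β b) := by
    refine ((RD.Mod.const ENNReal.one_ne_top).add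
      (RD.Mod.sum k fun a _ => B.mod_ev T.finB a)).mono' fun b => le_of_eq ?_
    rw [ENNReal.ofReal_add zero_le_one (by positivity), ENNReal.ofReal_one,
      ENNReal.ofReal_sum_of_nonneg fun _ _ => norm_nonneg _]
  have m2 : B.D.Mod fun b => ENNReal.ofReal (R b) := by
    refine (((RD.Mod.const (ENNReal.natCast_ne_top n)).mul (m1.pow n)).add
      (RD.Mod.const ENNReal.one_ne_top)).mono' fun b => le_of_eq ?_
    have := hβ b
    rw [ENNReal.ofReal_add (by positivity) zero_le_one, ENNReal.ofReal_one,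
      ENNReal.ofReal_mul (by positivity), ENNReal.ofReal_pow (by positivity),
      ENNReal.ofReal_natCast]
  choose C hC hC' using fun l => he l c hc0.le (hce l) R hR m2
  have hp : (0 : ℝ) < 2 / m := by positivity
  refine ⟨c, hc0, _, (m2.rpow (add_pos hp hc0).le).mul (RD.Mod.sum Finset.univ fun l _ => hC l), ?_⟩
  filter_upwards [(eventually_all_finset k).2 fun a _ => B.gen_reg a,
    eventually_all.2 fun l => (eventually_all_finset (G l)).2 fun g _ => rel_reg T.toRel g,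
    eventually_all.2 fun l => rel_reg T.toRel (J l),
    eventually_all.2 fun l => T.cv (T' l).toRel, eventually_all.2 hC'] with b h1 h2 h3 h4 h5
  have h6 := (T.fib b).ae_of_gen (eventually_all.2 fun l => (eventually_all_finset (G l)).2 (h2 l))
  have h7 := (T.fib b).ae_of_gen (eventually_all.2 h3)
  have hev : ∀ g : M, Measurable fun p : T.Fib b => p.1.ev g := fun g =>
    (Pt.measurable_ev g).comp measurable_subtype_coe
  have hA : ∀ l, MeasurableSet {p : T.Fib b | ∀ g ∈ G l, ‖p.1.ev g‖ < R b} := fun l => by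
    simp only [ofPred_forall]
    exact (G l).measurableSet_biInter fun g _ => measurableSet_lt (hev g).norm measurable_const
  have hf : ∀ l, Measurable fun (p : T.Fib b) i => p.1.ev (u l i) := fun l =>
    measurable_pi_lambda _ fun i => hev _
  refine N.Lct.of_charts hp hc0 (fun l => {p | ∀ g ∈ G l, ‖p.1.ev g‖ < R b}) ?_ hA
    (fun l p => p.1.ev (J l) ^ m) (fun l => (hev _).pow_const _) (fun l p i => p.1.ev (u l i)) hf
    (fun l => ?_) ENNReal.ofReal_ne_top (fun l => .of_forall fun p hp => ?_) (fun l => C l b)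
    fun l a ha => ?_
  · refine h6.mono fun p hp => ?_
    refine (H p.1.cp (β b) (hβ b) (fun a ha => ?_) fun l _ => hp l).imp
      fun l hl g hg => (hl.2 g hg).trans_lt (lt_add_one _)
    obtain ⟨e1, e2⟩ := rel_const T.toRel p (h1 a ha)
    refine ⟨e1, le_trans (le_of_eq (congrArg norm e2))
      (le_trans ?_ (le_add_of_nonneg_left zero_le_one))⟩
    exact Finset.single_le_sum (f := fun a => ‖b.ev a‖) (fun _ _ => norm_nonneg _) ha
  · filter_upwards [h6, h7] with p h8 h9 _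
    funext i
    obtain ⟨e1, e2⟩ := p.1.ev_pow (h9 l) m
    rw [Pi.smul_apply, smul_eq_mul, ← e2, ← (p.1.ev_mul e1 (h8 l _ (hGu l i))).2,
      mul_div_cancel₀ _ (pow_ne_zero m (Fr.ne l)), Pt.ev_coe]
  · rw [← ofReal_norm]
    exact ENNReal.ofReal_le_ofReal
      ((pi_norm_le_iff_of_nonneg (hR b).le).2 fun i => (hp _ (hGu l i)).le)
  have hdot : ∀ a : r → ℂ, Measurable fun x : M → ℂ => ‖a ⬝ᵥ fun i => x (u l i)‖ₑ ^ (-c) := by
    intro a
    refine (Measurable.enorm ?_).pow_const _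
    exact Finset.measurable_sum _ fun i _ => (measurable_pi_apply (u l i)).const_mul _
  have hd1 : Measurable fun p : T.Fib b => ‖a ⬝ᵥ fun i => p.1.ev (u l i)‖ₑ ^ (-c) := by
    refine (Measurable.enorm ?_).pow_const _
    exact Finset.measurable_sum _ fun i _ => (hev (u l i)).const_mul _
  have hd2 : Measurable fun p : T.Fib b => ‖p.1.ev (J l) ^ m‖ₑ ^ (2 / m : ℝ) :=
    ((hev _).pow_const _).enorm.pow_const _
  refine (lintegral_withDensity_eq_lintegral_mul _ hd2 hd1).trans_le ?_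
  refine N.lint_neg_of_unit (fun (p : T.Fib b) i => p.1.ev (u l i))
    (fun p => ‖p.1.ev (J l) ^ m‖ₑ ^ (2 / m : ℝ)) (fun a ha => ?_) ha
  have hS : MeasurableSet {x : M → ℂ | ‖fun j => x (Fr.f l j)‖ < R b} :=
    measurableSet_lt (measurable_pi_lambda _ fun j => measurable_pi_apply _).norm measurable_const
  have e := h4 l _ ((hdot a).indicator hS)
  rw [show (T' l).x = Fr.f l from funext (hT' l)] at e
  refine le_trans ?_ (e.symm.le.trans (h5 l a ha _ (fun q => ?_) fun q hq => ?_))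
  · rw [← lintegral_indicator (hA l)]
    refine lintegral_mono fun p => indicator_apply_le' (fun hp => le_of_eq ?_) fun _ => zero_le
    have h8 : p.1.ev ∈ {x : M → ℂ | ‖fun j => x (Fr.f l j)‖ < R b} :=
      (pi_norm_lt_iff (hR b)).2 fun j => hp _ (hGf l j)
    rw [indicator_of_mem h8, enorm_pow,
      ← ENNReal.rpow_natCast, ← ENNReal.rpow_mul, mul_div_cancel₀ _ (by positivity),
      ENNReal.ofReal_pow (norm_nonneg _), ofReal_norm, ENNReal.rpow_two]
  · refine (indicator_le_self _ _ _).trans (le_of_eq ?_)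
    congr 3
    exact funext fun i => q.1.ev_of_mem _
  · have := mem_of_indicator_ne_zero hq
    refine lt_of_eq_of_lt (congrArg norm (funext fun j => ?_)) this
    rw [(T' l).fib_π, ← hT' l j, ← Pt.ev_coe]
    rfl

theorem Fam.lct (T : Fam B ν M) (Fr : Frames T.dx)
    (hc : ∀ x : M, IsAlgebraic K x → x ∈ Set.range (algebraMap K M)) {m : ℕ} (hm : 0 < m)
    {r : Type} [Fintype r] {τ : r → T.X.O} (hτ : LinearIndependent K fun i => (τ i : M))
    (hP : ∀ i, Plu T.dx m (τ i : M)) :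
    ∃ c0 : ℝ, 0 < c0 ∧ ∃ C : Pt B.O → ENNReal, B.D.Mod C ∧ ∀ (b : Pt B.O) (c : ℝ), 0 < c → c ≤ c0 →
      N.Lct (T.fib b).μ (fun p i => p.1 (τ i)) (2 / m) c (C b) := by
  classical
  obtain ⟨c0, h0, C, hC, H⟩ := T.lct_gen Fr hc hm hτ hP
  refine ⟨c0, h0, fun b => if N.Lct (T.fib b).μ (fun p i => p.1 (τ i)) (2 / m) c0 (C b) then
    (Fintype.card r + 1 : ℝ≥0∞) ^ c0 * C b else ⊤, ((RD.Mod.const
      (ENNReal.rpow_ne_top_of_nonneg h0.le (by simp))).mul hC).mono
      (H.mono fun b hb => (if_pos hb).le), fun b c h1 h2 => ?_⟩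
  beta_reduce
  split_ifs with h
  · exact lct_mono (by positivity) h1 h2 h
  · intro a ha
    rw [ENNReal.top_mul (ENNReal.rpow_pos (by simpa using ha) enorm_ne_top).ne']
    exact le_top

end Pool.Agent.Lib.MP_5c318e_ag
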