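import Pool.Agent.Lib.MP_5c318e_ag.S.RCov
import Pool.Agent.Lib.MP_5c318e_ag.S.PBas
import Pool.Agent.Lib.MP_5c318e_ag.S.ADefs
import Pool.Agent.Lib.MP_5c318e_ag.N.Chart

/-! Multiplication matrices on a finite covering: the values of a function are eigenvalues, and
the determinant is not zero unless the function vanishes on an open set. -/

set_option autoImplicit false

namespace Pool.Agent.Lib.MP_5c318e_ag.F2

open Polynomial Set

/-- the matrix of the multiplication by `P` modulo `f` -/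
theorem exists_mat {R : Type} [CommRing R] {f : R[X]} (hf : f.Monic) (P : R[X]) :
    ∃ A : Matrix (Fin f.natDegree) (Fin f.natDegree) R, ∀ (φ : R →+* ℂ) (s : ℂ),
      f.eval₂ φ s = 0 → ∀ k, ∑ j : Fin f.natDegree, s ^ (j : ℕ) * φ (A j k) =
        P.eval₂ φ s * s ^ (k : ℕ) := by
  refine ⟨Matrix.of fun j k => ((P * X ^ (k : ℕ)) %ₘ f).coeff j, fun φ s hs k => ?_⟩
  have h1 : f ≠ 1 := fun e => by
    have := k.pos
    rw [e, natDegree_one] at this
    exact lt_irrefl _ this
  have h2 := eval₂_modByMonic_eq_self_of_root (p := P * X ^ (k : ℕ)) hs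
  rw [eval₂_eq_sum_range' φ (natDegree_modByMonic_lt _ hf h1), eval₂_mul, eval₂_X_pow,
    Finset.sum_range] at h2
  rw [← h2]
  exact Finset.sum_congr rfl fun j _ => mul_comm _ _

theorem det_eigen {n : ℕ} (hn : 0 < n) {A : Matrix (Fin n) (Fin n) ℂ} {s t : ℂ}
    (h : ∀ k, ∑ j : Fin n, s ^ (j : ℕ) * A j k = t * s ^ (k : ℕ)) :
    (t • (1 : Matrix (Fin n) (Fin n) ℂ) - A).det = 0 := by
  refine Matrix.exists_vecMul_eq_zero_iff.1 ⟨fun j => s ^ (j : ℕ), fun e => ?_, ?_⟩
  · simpa using congrFun e ⟨0, hn⟩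
  · rw [Matrix.vecMul_sub, Matrix.vecMul_smul, Matrix.vecMul_one, sub_eq_zero]
    exact funext fun k => (h k).symm

theorem cov_det_ne {ν : Type} [Fintype ν] {S : Type} [TopologicalSpace S] [MeasurableSpace S]
    {D : RD ν S} (C : D.Cov) {n : ℕ} (hn : C.f.natDegree = n)
    (A : Matrix (Fin n) (Fin n) (MvPolynomial ν ℂ)) (t : S → ℂ)
    (h : ∀ p k, ∑ j : Fin n, C.w p ^ (j : ℕ) * MvPolynomial.eval (D.π p) (A j k) =
      t p * C.w p ^ (k : ℕ))
    (ht : ∀ U : Set S, IsOpen U → U.Nonempty → ¬ ∀ p ∈ U, t p = 0) : A.det ≠ 0 := by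
  intro h0
  obtain ⟨v, hv, hA⟩ := Matrix.exists_mulVec_eq_zero_iff.2 h0
  let V : S → ℂ := fun p => ∑ k : Fin n, MvPolynomial.eval (D.π p) (v k) * C.w p ^ (k : ℕ)
  have hV : Continuous V := continuous_finsetSum _ fun k _ =>
    ((mv_cont (v k)).comp D.loc.continuous).mul (C.hol.cont.pow _)
  refine ht {p | V p ≠ 0} (isOpen_ne_fun hV continuous_const) ?_ fun p hp => ?_
  · obtain ⟨k, hk⟩ := Function.ne_iff.1 hv
    obtain ⟨z, -, hz⟩ := N.exists_eval_ne (mul_ne_zero C.ne hk)
    rw [map_mul] at hz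
    have h1 := C.card (left_ne_zero_of_mul hz)
    rw [hn, (C.fin z).encard_eq_coe_toFinset_card, Nat.cast_inj] at h1
    let e := (Finset.equivFinOfCardEq h1).symm
    have he : ∀ j, D.π (e j).1 = z := fun j => (C.fin z).mem_toFinset.1 (e j).2
    by_contra hU
    have h2 := Matrix.eq_zero_of_forall_index_sum_mul_pow_eq_zero
      (f := fun j => C.w (e j).1) (v := fun k => MvPolynomial.eval z (v k))
      (fun i j hij => e.injective (Subtype.ext (C.inj _ _ ((he i).trans (he j).symm) hij)))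
      fun j => by
        by_contra h3
        refine hU ⟨(e j).1, ?_⟩
        simpa only [V, mem_ofPred_eq, he] using h3
    exact right_ne_zero_of_mul hz (congrFun h2 k)
  · refine (mul_eq_zero.1 ?_).resolve_right hp
    have h1 : ∀ j, ∑ k, MvPolynomial.eval (D.π p) (A j k) * MvPolynomial.eval (D.π p) (v k) = 0 :=
      fun j => by
        have := congrArg (MvPolynomial.eval (D.π p)) (congrFun hA j)
        simpa only [Matrix.mulVec, dotProduct, map_sum, map_mul, Pi.zero_apply, map_zero] using this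
    calc t p * V p = ∑ k : Fin n, (t p * C.w p ^ (k : ℕ)) * MvPolynomial.eval (D.π p) (v k) := by
          rw [Finset.mul_sum]; exact Finset.sum_congr rfl fun k _ => by ring
      _ = ∑ j : Fin n, C.w p ^ (j : ℕ) *
            ∑ k, MvPolynomial.eval (D.π p) (A j k) * MvPolynomial.eval (D.π p) (v k) := by
          simp only [← h, Finset.sum_mul, Finset.mul_sum, mul_assoc]
          exact Finset.sum_comm
      _ = 0 := by simp [h1]

variable {δ ν K M : Type} [Fintype δ] [DecidableEq δ] [Fintype ν] [DecidableEq ν]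
  [Field K] [Algebra ℂ K] [Field M] [Algebra ℂ M] [Algebra K M] {B : Cht δ K}

/-- evaluation of a polynomial over the base ring at a point of a fibre -/
theorem fib_eval (T : Rel B ν M) {b : Pt B.O} (q : T.Fib b) :
    (q.1.hom : T.X.O →+* ℂ).comp
      (MvPolynomial.eval₂Hom (T.inc : B.O →+* T.X.O) fun i => T.X.z (Sum.inr i)) =
      MvPolynomial.eval₂Hom (b.hom : B.O →+* ℂ) ((T.fib b).π q) := by
  refine MvPolynomial.ringHom_ext (fun a => ?_) fun i => ?_
  · simpa using DFunLike.congr_fun q.2 a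
  · simp [T.fib_π]

/-- the matrices of a finite family of regular functions -/
theorem fam_mat (T : Fam B ν M) {r : Type} [Fintype r] (u : r → T.X.O) :
    ∃ (A : r → Matrix (Fin T.finX.f.natDegree) (Fin T.finX.f.natDegree) (MvPolynomial ν B.O))
      (j : ℕ), ∀ (b : Pt B.O) (q : T.Fib b), 0 < T.finX.f.natDegree ∧ ∀ (a : r → ℂ) k,
      ∑ l : Fin T.finX.f.natDegree, q.1 T.finX.w ^ (l : ℕ) *
        ∑ i, a i * MvPolynomial.eval₂ (b.hom : B.O →+* ℂ) ((T.fib b).π q) (A i l k) =
      MvPolynomial.eval₂ (b.hom : B.O →+* ℂ) ((T.fib b).π q) (T.finX.Δ ^ j) *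
        (a ⬝ᵥ fun i => q.1 (u i)) * q.1 T.finX.w ^ (k : ℕ) := by
  choose P j hP using fun i => T.finX.gen (u i)
  choose A hA using fun i =>
    exists_mat T.finX.monic (P i * C (T.finX.Δ ^ (Finset.univ.sup j - j i)))
  refine ⟨A, Finset.univ.sup j, fun b q => ?_⟩
  set φ := MvPolynomial.eval₂Hom (b.hom : B.O →+* ℂ) ((T.fib b).π q) with hφ
  have e := fib_eval T.toRel q
  have h0 : T.finX.f.eval₂ φ (q.1 T.finX.w) = 0 := by
    have := congrArg (q.1.hom : T.X.O →+* ℂ) T.finX.root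
    rwa [hom_eval₂, e, map_zero] at this
  refine ⟨Nat.pos_of_ne_zero fun h => ?_, fun a k => ?_⟩
  · rw [T.finX.monic.natDegree_eq_zero.1 h] at h0
    simp at h0
  have h1 : ∀ i, q.1 (u i) * φ T.finX.Δ ^ j i = (P i).eval₂ φ (q.1 T.finX.w) := fun i => by
    have := congrArg (q.1.hom : T.X.O →+* ℂ) (hP i)
    rw [hom_eval₂, e, map_mul, map_pow] at this
    rw [← RingHom.congr_fun e T.finX.Δ]
    exact this
  have h2 : ∀ i, ∑ l : Fin T.finX.f.natDegree, q.1 T.finX.w ^ (l : ℕ) * φ (A i l k) =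
      φ (T.finX.Δ ^ Finset.univ.sup j) * q.1 (u i) * q.1 T.finX.w ^ (k : ℕ) := fun i => by
    rw [hA i φ _ h0 k, eval₂_mul, eval₂_C, ← h1, map_pow, map_pow, mul_assoc (q.1 (u i)), ← pow_add,
      Nat.add_sub_cancel' (Finset.le_sup (f := j) (Finset.mem_univ i)), mul_comm (q.1 (u i))]
  calc _ = ∑ i, a i * ∑ l : Fin T.finX.f.natDegree, q.1 T.finX.w ^ (l : ℕ) * φ (A i l k) := by
        simp only [Finset.mul_sum]
        rw [Finset.sum_comm]
        exact Finset.sum_congr rfl fun i _ => Finset.sum_congr rfl fun l _ => mul_left_comm _ _ _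
    _ = _ := by
        simp only [h2, dotProduct, Finset.mul_sum, Finset.sum_mul]
        exact Finset.sum_congr rfl fun i _ => by
          rw [← MvPolynomial.coe_eval₂Hom, ← hφ]; ring

end Pool.Agent.Lib.MP_5c318e_ag.F2
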