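import Pool.Agent.Lib.MP_5c318e_ag.F2.Main
import Pool.Agent.Lib.MP_5c318e_ag.S.Up

/-! Small powers of rational functions are integrable for the measures of pluricanonical forms. -/

set_option autoImplicit false

namespace Pool.Agent.Lib.MP_5c318e_ag

open MeasureTheory Set Filter
open scoped ENNReal

variable {ι F : Type} [Fintype ι] [DecidableEq ι] [Field F] [Algebra ℂ F]
  {δ ν K M : Type} [Fintype δ] [DecidableEq δ] [Fintype ν] [DecidableEq ν]
  [Field K] [Algebra ℂ K] [Field M] [Algebra ℂ M] [Algebra K M] [IsScalarTower ℂ K M] {B : Cht δ K}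

namespace F2

theorem not_open {S : Type} [TopologicalSpace S] [MeasurableSpace S] [BorelSpace S] [T2Space S]
    [SigmaCompactSpace S] {D : RD ι S} {t : S → ℂ} (h : ∀ᶠ p in D.gen, t p ≠ 0) {U : Set S}
    (hU : IsOpen U) (hne : U.Nonempty) : ¬ ∀ p ∈ U, t p = 0 := fun h0 => by
  have := D.openPos
  exact hU.measure_ne_zero D.μ hne (measure_mono_null (t := {p | ¬ t p ≠ 0})
    (fun p hp h1 => h1 (h0 p hp)) (ae_iff.1 (D.ae_of_gen h)))

theorem ev_le {A : Subalgebra ℂ F} (q : Pt A) {φ : F} (h : φ⁻¹ ∈ A) {c : ℝ} (hc : 0 < c) :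
    ‖q.ev φ‖ₑ ^ c ≤ ‖q ⟨φ⁻¹, h⟩‖ₑ ^ (-c) := by
  rw [← q.ev_of_mem h]
  by_cases h0 : q.ev φ⁻¹ = 0
  · rw [h0, enorm_zero, ENNReal.zero_rpow_of_neg (neg_lt_zero.2 hc)]
    exact le_top
  · have := q.ev_inv (q.reg_of_mem h) h0
    rw [inv_inv] at this
    rw [this, enorm_inv h0, ENNReal.inv_rpow, ENNReal.rpow_neg]

theorem rpow_le_one_add {x : ℝ≥0∞} {c c0 : ℝ} (h0 : 0 ≤ c) (h : c ≤ c0) : x ^ c ≤ 1 + x ^ c0 := by
  rcases le_total x 1 with hx | hx
  · exact le_add_right (ENNReal.rpow_le_one hx h0)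
  · exact le_add_left (ENNReal.rpow_le_rpow_of_exponent_le hx h)

theorem exists_exp {I : Type} [Fintype I] (e : I → ℕ) : ∃ c : ℝ, 0 < c ∧ ∀ l, e l * c < 2 := by
  refine ⟨1 / (∑ l, (e l : ℝ) + 1), by positivity, fun l => ?_⟩
  have := Finset.single_le_sum (f := fun l => (e l : ℝ)) (fun _ _ => by positivity)
    (Finset.mem_univ l)
  rw [mul_one_div, div_lt_iff₀ (by positivity)]
  have : (0 : ℝ) ≤ e l := by positivity
  linarith

omit [IsScalarTower ℂ K M] in
/-- one function above a polydisc of one chart -/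
theorem chart1 (T : Fam B ν M) {u : T.X.O} (hu : u ≠ 0) :
    ∃ e : ℕ, ∀ c : ℝ, 0 ≤ c → e * c < 2 → ∀ R : Pt B.O → ℝ, (∀ b, 0 < R b) →
      (B.D.Mod fun b => ENNReal.ofReal (R b)) → ∃ C : Pt B.O → ℝ≥0∞, B.D.Mod C ∧
      ∀ᶠ b in B.D.gen, ∀ G : T.Fib b → ℝ≥0∞,
        (∀ q, G q ≤ ‖q.1 u‖ₑ ^ (-c)) → (∀ q, G q ≠ 0 → ‖(T.fib b).π q‖ < R b) →
        ∫⁻ q, G q ∂(T.fib b).μ ≤ C b := by
  obtain ⟨A, j, hA⟩ := fam_mat T fun _ : Unit => u
  have hB : ∀ a : B.O, B.D.Mod fun b => ‖b a‖ₑ := fun a => by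
    simpa only [Pt.ev_coe, ofReal_norm] using B.mod_ev T.finB a
  obtain ⟨e, H⟩ := eigen hB A (T.finX.Δ ^ j) (by
    filter_upwards [T.gen_Δ, T.gen_ne hu] with b h1 h2 a ha
    obtain ⟨C, e1, e2, e3⟩ := T.cov b h1
    refine cov_det_ne C (e1 ▸ T.finX.monic.natDegree_map _) _ (fun p k => ?_)
      (t := fun p => MvPolynomial.eval₂ (b.hom : B.O →+* ℂ) ((T.fib b).π p) (T.finX.Δ ^ j) *
        (a ⬝ᵥ fun _ => p.1 u)) fun U hU hne => not_open (h2.mono fun p hp => ?_) hU hne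
    · rw [e3, ← (hA b p).2 a k]
      simp only [Matrix.of_apply, map_sum, map_mul, MvPolynomial.eval_C, MvPolynomial.eval_map]
    · have := C.Δ_ne p
      rw [e2, MvPolynomial.eval_map] at this
      rw [MvPolynomial.eval₂_pow, dotProduct, Fintype.sum_unique]
      exact mul_ne_zero (pow_ne_zero _ this) (mul_ne_zero (fun h => ha (funext fun _ => h)) hp))
  refine ⟨e, fun c h0 he R hR hm => ?_⟩
  obtain ⟨C, hC, H⟩ := H c h0 he R hR hm
  refine ⟨_, (RD.Mod.const (ENNReal.natCast_ne_top T.finX.f.natDegree)).mul hC, ?_⟩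
  filter_upwards [H, T.gen_Δ] with b hb h1 G hG hG'
  obtain ⟨F, hF, h2, h3⟩ := hb 1 norm_one
  obtain ⟨Cv, e1, -⟩ := T.cov b h1
  refine le_trans (lintegral_mono fun q => ?_) ((Cv.lint_le hF).trans
    (mul_le_mul' (Nat.cast_le.2 (e1 ▸ Polynomial.natDegree_map_le)) h2))
  by_cases h : G q = 0
  · exact h.trans_le zero_le
  · refine (hG q).trans (le_of_eq_of_le ?_
      (h3 _ _ (hG' q h) (det_eigen (hA b q).1 ((hA b q).2 1))))
    simp [dotProduct]

/-- one function above a polydisc, absolute case -/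
theorem cht1 (c : Cht ι F) (h : Fini (Algebra.ofId ℂ c.O) c.z) {u : c.O} (hu : u ≠ 0) :
    ∃ e : ℕ, ∀ s : ℝ, 0 < s → e * s < 2 → ∀ R : ℝ, 0 ≤ R →
      ∫⁻ q in {q | ‖c.D.π q‖ ≤ R}, ‖q u‖ₑ ^ (-s) ∂c.D.μ < ⊤ := by
  obtain ⟨C, e1, e2, e3⟩ := c.cov h
  obtain ⟨P, j, hP⟩ := h.gen_pt u
  simp only [Pt.map_complex, Polynomial.map_id, RingHom.id_apply, ← c.π_fun, ← e2, ← e3] at hP
  obtain ⟨A, hA⟩ := exists_mat C.monic P
  have hA' : ∀ p k, ∑ l : Fin C.f.natDegree, C.w p ^ (l : ℕ) * MvPolynomial.eval (c.D.π p) (A l k) =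
      MvPolynomial.eval (c.D.π p) (C.Δ ^ j) * p u * C.w p ^ (k : ℕ) := fun p k => by
    rw [hA _ _ (C.root p) k, map_pow, mul_comm _ (p u), hP p, ev2]
  have hd := cov_det_ne C rfl A _ hA' fun U hU hne => not_open ((c.gen_ne hu).mono fun p hp =>
    mul_ne_zero (by rw [map_pow]; exact pow_ne_zero _ (C.Δ_ne p)) hp) hU hne
  have hm : ∀ R : ℝ, MeasurableSet {q | ‖c.D.π q‖ ≤ R} := fun R =>
    (isClosed_le c.D.loc.continuous.norm continuous_const).measurableSet
  refine ⟨Fintype.card (Fin C.f.natDegree) * Finset.univ.sup fun x : _ × _ =>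
    (A x.1 x.2).totalDegree, fun s hs he R hR => ?_⟩
  obtain ⟨V, hV, H⟩ := N.lct_chart (ρ := c.D.μ.restrict {q | ‖c.D.π q‖ ≤ R}) c.D.π
    (fun q (_ : Unit) => q u) (fun _ => A) (C.Δ ^ j)
    (fun _ l k => Finset.le_sup (f := fun x : _ × _ => (A x.1 x.2).totalDegree)
      (Finset.mem_univ (l, k)))
    (fun a ha => by
      rw [Fintype.sum_unique, show a default • A =
          (MvPolynomial.C (a default) : MvPolynomial ι ℂ) • A from Matrix.ext fun l k => by
        simp only [Matrix.smul_apply, MvPolynomial.smul_eq_C_mul, smul_eq_mul], Matrix.det_smul]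
      exact mul_ne_zero (pow_ne_zero _ (MvPolynomial.C_ne_zero.2 fun h =>
        ha (funext fun _ => h))) hd) hR
    (ae_restrict_mem (hm R)) (fun a => .of_forall fun p => by
      refine det_eigen (s := C.w p) (Nat.pos_of_ne_zero fun h0 => ?_) fun k => ?_
      · have := C.root p
        rw [C.monic.natDegree_eq_zero.1 h0] at this
        simp [ev2] at this
      · simp only [Fintype.sum_unique, Matrix.map_apply, Matrix.smul_apply, MvPolynomial.smul_eval,
          dotProduct, mul_left_comm _ (a default), ← Finset.mul_sum, hA']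
        ring)
    (ENNReal.natCast_ne_top C.f.natDegree) (fun G hG => by
      rw [← lintegral_indicator (hm R), ← lintegral_indicator measurableSet_closedBall]
      refine le_trans (le_of_eq (lintegral_congr fun p => ?_))
        (C.lint_le (hG.indicator measurableSet_closedBall))
      by_cases hp : ‖c.D.π p‖ ≤ R <;> simp [hp]) hs (by rwa [mul_comm])
  simpa [dotProduct] using (H 1).trans_lt (by simpa using hV.lt_top)

omit [DecidableEq ι] [Field F] [Algebra ℂ F] in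
/-- the integrated form of the bound by frames, with a factor -/
theorem core {S I : Type} [MeasurableSpace S] [Fintype I] {μ : Measure S} {e : S → F → ℂ}
    (he : Measurable e) {f : I → ι → F} {J : I → F} {w : S → ℝ≥0∞} {ρ : ℝ≥0∞} {R : ℝ}
    {V : I → ℝ≥0∞} {g : (F → ℂ) → ℝ≥0∞} (hg : Measurable g)
    (h1 : ∀ᵐ p ∂μ, w p ≤ ρ * ∑ i, ENNReal.ofReal (‖e p (J i)‖ ^ 2) *
      indicator (Front.disc (f i) R) 1 (e p))
    (h2 : ∀ i, ∫⁻ p, ENNReal.ofReal (‖e p (J i)‖ ^ 2) * indicator (Front.disc (f i) R) g (e p) ∂μ ≤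
      V i) : ∫⁻ p, w p * g (e p) ∂μ ≤ ρ * ∑ i, V i := by
  have hm : ∀ i, Measurable fun p => ENNReal.ofReal (‖e p (J i)‖ ^ 2) *
      indicator (Front.disc (f i) R) g (e p) := fun i =>
    (((measurable_pi_apply (J i)).comp he).norm.pow_const 2).ennreal_ofReal.mul
      ((hg.indicator (Front.disc_meas (f i) R)).comp he)
  refine le_trans (lintegral_mono_ae (h1.mono fun p hp => (mul_le_mul_left hp _).trans_eq ?_))
    (((lintegral_const_mul ρ (Finset.measurable_fun_sum _ fun i _ => hm i)).trans (congrArg _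
      (lintegral_finsetSum _ fun i _ => hm i))).trans_le
      (mul_le_mul_right (Finset.sum_le_sum fun i _ => h2 i) _))
  rw [mul_assoc, Finset.sum_mul]
  refine congrArg _ (Finset.sum_congr rfl fun i _ => ?_)
  by_cases h : e p ∈ Front.disc (f i) R <;> simp [h]

end F2

open F2

/-- one form, one exponent -/
theorem Fam.mom_gen (T : Fam B ν M) (Fr : Frames T.dx) {m : ℕ} (hm : 0 < m) {I : Type} [Fintype I]
    (φ : I → M) : ∃ c : ℝ, 0 < c ∧ ∀ ψ, Plu T.dx m ψ → ∀ i, B.D.Mod fun b =>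
      ∫⁻ p, ‖p.1.ev ψ‖ₑ ^ (2 / m : ℝ) * ‖p.1.ev (φ i)‖ₑ ^ c ∂(T.fib b).μ := by
  classical
  have : CharZero M := charZero_of_injective_algebraMap (algebraMap ℂ M).injective
  let φ' : I → M := fun i => if φ i = 0 then 1 else (φ i)⁻¹
  choose T' hT' hT'' using fun l => exists_fam T.fg B ⟨T.finB⟩
    (Front.basis_of_jac T.dual.basis (Fr.ne l)) (Finset.univ.image φ')
  have hmem : ∀ l i, φ' i ∈ (T' l).X.O := fun l i =>
    hT'' l _ (Finset.mem_image_of_mem _ (Finset.mem_univ i))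
  choose e he using fun x : Fin Fr.N × I => chart1 (T' x.1) (u := ⟨φ' x.2, hmem x.1 x.2⟩)
    fun h => by
      have : φ' x.2 = 0 := congrArg Subtype.val h
      by_cases h0 : φ x.2 = 0 <;> simp [φ', h0] at this
  obtain ⟨c, hc0, hce⟩ := exists_exp e
  refine ⟨c, hc0, fun ψ hψ i => ?_⟩
  by_cases h0 : φ i = 0
  · simpa [h0, ENNReal.zero_rpow_of_pos hc0] using RD.Mod.const (D := B.D) ENNReal.zero_ne_top
  have hφ : φ' i = (φ i)⁻¹ := if_neg h0
  obtain ⟨s, k, n, H⟩ := Front.cert Fr hm hψ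
  let β : Pt B.O → ℝ := fun b => 1 + ∑ a ∈ k, ‖b.ev a‖
  have hβ : ∀ b, 1 ≤ β b := fun b => le_add_of_nonneg_right (by positivity)
  let R : Pt B.O → ℝ := fun b => (n + 1) * β b ^ n
  have hR : ∀ b, 0 ≤ R b := fun b => mul_nonneg (by positivity) (pow_nonneg (by positivity) n)
  have m1 : B.D.Mod fun b => ENNReal.ofReal (β b) := by
    refine ((RD.Mod.const ENNReal.one_ne_top).add
      (RD.Mod.sum k fun a _ => B.mod_ev T.finB a)).mono' fun b => le_of_eq ?_
    rw [ENNReal.ofReal_add zero_le_one (by positivity), ENNReal.ofReal_one,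
      ENNReal.ofReal_sum_of_nonneg fun _ _ => norm_nonneg _]
  have m2 : B.D.Mod fun b => ENNReal.ofReal (R b) := by
    refine ((RD.Mod.const (c := ENNReal.ofReal (n + 1)) ENNReal.ofReal_ne_top).mul
      (m1.pow n)).mono' fun b => le_of_eq ?_
    rw [ENNReal.ofReal_mul (by positivity), ENNReal.ofReal_pow (zero_le_one.trans (hβ b))]
  have m3 : B.D.Mod fun b => ENNReal.ofReal (R b + 1) :=
    (m2.add (RD.Mod.const ENNReal.one_ne_top)).mono' fun b => le_of_eq (by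
      rw [ENNReal.ofReal_add (hR b) zero_le_one, ENNReal.ofReal_one])
  choose C hC hC' using fun l => he (l, i) c hc0.le (hce _) (fun b => R b + 1)
    (fun b => by have := hR b; positivity) m3
  refine ((m2.pow 2).mul (RD.Mod.sum Finset.univ fun l _ => hC l)).mono ?_
  filter_upwards [(eventually_all_finset k).2 fun a _ => B.gen_reg a,
    (eventually_all_finset s).2 fun g _ => rel_reg T.toRel g,
    eventually_all.2 fun l => T.cv (T' l).toRel, eventually_all.2 hC'] with b h1 h2 h3 h4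
  have hg : Measurable fun x : M → ℂ => ‖x (φ i)‖ₑ ^ c := (measurable_pi_apply _).enorm.pow_const _
  refine core (e := fun p : T.Fib b => p.1.ev) (f := Fr.f) (J := fun l => Jac T.dx (Fr.f l))
    (R := R b) (Pt.measurable_ev'.comp measurable_subtype_coe) hg ?_ fun l => ?_
  · refine ((T.fib b).ae_of_gen ((eventually_all_finset s).2 h2)).mono fun p hp => ?_
    rw [← ofReal_norm, ENNReal.ofReal_rpow_of_nonneg (norm_nonneg _) (by positivity)]
    refine H p.1.cp (β b) (hβ b) (fun a ha => ?_) hp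
    obtain ⟨e1, e2⟩ := rel_const T.toRel p (h1 a ha)
    refine ⟨e1, le_trans (le_of_eq (congrArg norm e2))
      (le_trans ?_ (le_add_of_nonneg_left zero_le_one))⟩
    exact Finset.single_le_sum (f := fun a => ‖b.ev a‖) (fun _ _ => norm_nonneg _) ha
  · have e := h3 l _ (hg.indicator (Front.disc_meas (Fr.f l) (R b)))
    rw [show (T' l).x = Fr.f l from funext (hT' l)] at e
    refine e.symm.le.trans (h4 l _ (fun q => ?_) fun q hq => ?_)
    · refine (indicator_le_self _ _ _).trans ((ev_le q.1 (hφ ▸ hmem l i) hc0).trans_eq ?_)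
      congr 4
      exact hφ.symm
    · refine lt_of_le_of_lt ((pi_norm_le_iff_of_nonneg (hR b)).2 fun j => ?_) (lt_add_one _)
      refine le_of_eq_of_le ?_ (mem_of_indicator_ne_zero hq j)
      rw [(T' l).fib_π, ← hT' l j, ← Pt.ev_coe]
      rfl

/-- moments of finitely many rational functions for the mass of a frame -/
theorem Fam.mom (T : Fam B ν M) (Fr : Frames T.dx) {m : ℕ} (hm : 0 < m) {r : Type} [Fintype r]
    {τ : r → T.X.O} (hP : ∀ i, Plu T.dx m (τ i : M)) {I : Type} [Fintype I] (φ : I → M) :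
    ∃ c0 : ℝ, 0 < c0 ∧ ∃ C : Pt B.O → ℝ≥0∞, B.D.Mod C ∧ ∀ (b : Pt B.O) (c : ℝ), 0 ≤ c → c ≤ c0 →
      ∀ i, ∫⁻ p, ‖fun j => p.1 (τ j)‖ₑ ^ (2 / m : ℝ) * ‖p.1.ev (φ i)‖ₑ ^ c ∂(T.fib b).μ ≤ C b := by
  classical
  obtain ⟨c0, h0, H⟩ := T.mom_gen Fr hm φ
  refine ⟨c0, h0, _, (T.up_B Fr hm hP).add (RD.Mod.sum Finset.univ fun i _ =>
    RD.Mod.sum Finset.univ fun j _ => H _ (hP j) i), fun b c h1 h2 i => ?_⟩
  have hp : (0 : ℝ) < 2 / m := by positivity
  have hev : ∀ g : M, Measurable fun p : T.Fib b => p.1.ev g := fun g =>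
    (Pt.measurable_ev g).comp measurable_subtype_coe
  refine le_trans ?_ (add_le_add_right (Finset.single_le_sum (f := fun i => ∑ j, ∫⁻ p : T.Fib b,
    ‖p.1.ev (τ j)‖ₑ ^ (2 / m : ℝ) * ‖p.1.ev (φ i)‖ₑ ^ c0 ∂(T.fib b).μ) (fun _ _ => zero_le)
    (Finset.mem_univ i)) _)
  have hj : ∀ j, Measurable fun p : T.Fib b =>
      ‖p.1.ev (τ j)‖ₑ ^ (2 / m : ℝ) * ‖p.1.ev (φ i)‖ₑ ^ c0 := fun j =>
    ((hev _).enorm.pow_const _).mul ((hev _).enorm.pow_const _)
  rw [N.nB, ← lintegral_finsetSum _ fun j _ => hj j,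
    ← lintegral_add_left ((T.measurable_fr τ b).enorm.pow_const _)]
  refine lintegral_mono fun p => (mul_le_mul_right (rpow_le_one_add h1 h2) _).trans ?_
  rw [mul_add, mul_one, ← Finset.sum_mul]
  refine add_le_add_right (mul_le_mul_left ?_ _) _
  rcases isEmpty_or_nonempty r with h | h
  · simp [Subsingleton.elim (fun j => p.1 (τ j)) 0, ENNReal.zero_rpow_of_pos hp]
  obtain ⟨j, hj⟩ := Finite.exists_max fun j => ‖p.1 (τ j)‖
  refine le_trans ?_ (Finset.single_le_sum (f := fun j => ‖p.1.ev (τ j)‖ₑ ^ (2 / m : ℝ))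
    (fun _ _ => zero_le) (Finset.mem_univ j))
  refine ENNReal.rpow_le_rpow ?_ hp.le
  rw [Pt.ev_coe, ← ofReal_norm, ← ofReal_norm]
  exact ENNReal.ofReal_le_ofReal ((pi_norm_le_iff_of_nonneg (norm_nonneg _)).2 hj)

/-- the absolute case -/
theorem Cht.mom (c : Cht ι F) (Fr : Frames c.der) {m : ℕ} (hm : 0 < m) (φ : F) :
    ∃ s0 : ℝ, 0 < s0 ∧ ∀ ψ, Plu c.der m ψ → ∀ s : ℝ, 0 ≤ s → s ≤ s0 →
      ∫⁻ p, ‖p.ev ψ‖ₑ ^ (2 / m : ℝ) * ‖p.ev φ‖ₑ ^ s ∂c.D.μ < ⊤ := by
  classical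
  have : CharZero F := charZero_of_injective_algebraMap (algebraMap ℂ F).injective
  suffices h : ∃ s0 : ℝ, 0 < s0 ∧ ∀ ψ, Plu c.der m ψ →
      ∫⁻ p, ‖p.ev ψ‖ₑ ^ (2 / m : ℝ) * ‖p.ev φ‖ₑ ^ s0 ∂c.D.μ < ⊤ by
    obtain ⟨s0, h0, H⟩ := h
    refine ⟨s0, h0, fun ψ hψ s h1 h2 => lt_of_le_of_lt (lintegral_mono fun p =>
      (mul_le_mul_right (rpow_le_one_add h1 h2) _).trans_eq (by rw [mul_add, mul_one])) ?_⟩
    rw [lintegral_add_left ((Pt.measurable_ev ψ).enorm.pow_const _)]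
    refine ENNReal.add_lt_top.2 ⟨lt_of_eq_of_lt (lintegral_congr fun p => ?_) (c.front Fr hm hψ),
      H ψ hψ⟩
    rw [← ofReal_norm, ENNReal.ofReal_rpow_of_nonneg (norm_nonneg _) (by positivity)]
  by_cases h0 : φ = 0
  · exact ⟨1, one_pos, fun ψ _ => by simp [h0]⟩
  choose c' hc' hm' hf using fun l => exists_base c.fg (Front.basis_of_jac c.basis (Fr.ne l)) {φ⁻¹}
  have hmem : ∀ l, φ⁻¹ ∈ (c' l).O := fun l => hm' l _ (Finset.mem_singleton_self _)
  choose e he using fun l => cht1 (c' l) (hf l).some (u := ⟨φ⁻¹, hmem l⟩)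
    fun h => inv_ne_zero h0 (congrArg Subtype.val h)
  obtain ⟨s, hs, hse⟩ := exists_exp e
  refine ⟨s, hs, fun ψ hψ => ?_⟩
  obtain ⟨t, k, n, H⟩ := Front.cert Fr hm hψ
  let β : ℝ := 1 + ∑ a ∈ k, ‖a‖
  have hβ : 1 ≤ β := le_add_of_nonneg_right (by positivity)
  let R : ℝ := (n + 1) * β ^ n
  have hR : 0 ≤ R := mul_nonneg (by positivity) (pow_nonneg (by positivity) n)
  have hg : Measurable fun x : F → ℂ => ‖x φ‖ₑ ^ s := (measurable_pi_apply _).enorm.pow_const _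
  refine lt_of_le_of_lt (core (e := fun p : Pt c.O => p.ev) (f := Fr.f)
    (J := fun l => Jac c.der (Fr.f l)) (R := R) (ρ := ENNReal.ofReal R ^ 2) Pt.measurable_ev' hg ?_
    fun l => ?_) (ENNReal.mul_lt_top (ENNReal.pow_lt_top ENNReal.ofReal_lt_top)
      (ENNReal.sum_lt_top.2 fun l _ => he l s hs (hse l) R hR))
  · refine (c.D.ae_of_gen ((eventually_all_finset t).2 fun g _ => c.gen_reg g)).mono fun p hp => ?_
    rw [← ofReal_norm, ENNReal.ofReal_rpow_of_nonneg (norm_nonneg _) (by positivity)]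
    refine H p.cp β hβ (fun a ha => ⟨p.loc.algebraMap_mem a, ?_⟩) hp
    refine le_trans (le_of_eq (congrArg norm (p.ev_alg a)))
      (le_trans ?_ (le_add_of_nonneg_left zero_le_one))
    exact Finset.single_le_sum (f := fun a : ℂ => ‖a‖) (fun _ _ => norm_nonneg _) ha
  · have e := Front.cht_cv c (c' l) (hg.indicator (Front.disc_meas (Fr.f l) R))
    rw [show (fun j => ((c' l).z j : F)) = Fr.f l from funext (hc' l)] at e
    rw [← e, ← lintegral_indicator
      (isClosed_le (c' l).D.loc.continuous.norm continuous_const).measurableSet]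
    refine lintegral_mono fun q => indicator_apply_le' (fun hq => ?_) fun _ => zero_le
    have h1 : q ∈ {q | ‖(c' l).D.π q‖ ≤ R} := (pi_norm_le_iff_of_nonneg hR).2 fun j => by
      rw [(c' l).π_eq, ← Pt.ev_coe, hc' l j]
      exact hq j
    rw [indicator_of_mem h1]
    exact ev_le q (hmem l) hs

end Pool.Agent.Lib.MP_5c318e_ag
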